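import Pool.Agent.H83.D3N.Targets

/-!
# Board obk_modules, row CEL
-/

set_option autoImplicit false

namespace Pool.Agent.H60.D3N.CEL

open MeasureTheory Set
open Pool.Agent.H83.G Pool.Agent.H83.D3N
open scoped ENNReal NNReal RealInnerProductSpace

/-- the number of integers in an interval -/
lemma card_icc (a c : ℝ) (hc : 0 ≤ c) : ((Finset.Icc ⌈a - c⌉ ⌊a + c⌋).card : ℝ) ≤ 2 * c + 1 := by
  rw [Int.card_Icc]
  have h1 : ((⌊a + c⌋ : ℤ) : ℝ) ≤ a + c := Int.floor_le _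
  have h2 : a - c ≤ ((⌈a - c⌉ : ℤ) : ℝ) := Int.le_ceil _
  rcases le_or_gt (⌊a + c⌋ + 1 - ⌈a - c⌉) 0 with h | h
  · rw [Int.toNat_of_nonpos h, Nat.cast_zero]
    linarith
  · have h3 : (((⌊a + c⌋ + 1 - ⌈a - c⌉).toNat : ℕ) : ℤ) = ⌊a + c⌋ + 1 - ⌈a - c⌉ :=
      Int.toNat_of_nonneg h.le
    have h4 : (((⌊a + c⌋ + 1 - ⌈a - c⌉).toNat : ℕ) : ℝ) =
        (⌊a + c⌋ : ℝ) + 1 - (⌈a - c⌉ : ℝ) := by
      have h5 := congrArg (fun z : ℤ => (z : ℝ)) h3
      push_cast at h5 ⊢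
      exact h5
    rw [h4]
    linarith

lemma coord (x : E 2) (i : Fin 2) : |x i| ≤ ‖x‖ := by
  rw [← Real.norm_eq_abs]
  exact PiLp.norm_apply_le x i

lemma norm_le (x : E 2) (r : ℝ) (hr : 0 ≤ r) (h : ∀ i, |x i| ≤ r) : ‖x‖ ≤ 2 * r := by
  have h1 : ‖x‖ ^ 2 ≤ (2 * r) ^ 2 := by
    rw [EuclideanSpace.norm_sq_eq, Fin.sum_univ_two, Real.norm_eq_abs, Real.norm_eq_abs]
    have h2 : |x 0| ^ 2 ≤ r ^ 2 := pow_le_pow_left₀ (abs_nonneg _) (h 0) 2
    have h3 : |x 1| ^ 2 ≤ r ^ 2 := pow_le_pow_left₀ (abs_nonneg _) (h 1) 2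
    nlinarith [sq_nonneg r]
  exact (abs_le_of_sq_le_sq' h1 (by positivity)).2

lemma frac (x r : ℝ) (hr : 0 < r) : 0 ≤ x - r * (⌊x / r⌋ : ℝ) ∧ x - r * (⌊x / r⌋ : ℝ) ≤ r := by
  have h1 := Int.floor_le (x / r)
  have h2 := (Int.lt_floor_add_one (x / r)).le
  have h3 : x = r * (x / r) := by field_simp
  constructor
  · have := mul_le_mul_of_nonneg_left h1 hr.le
    linarith
  · have := mul_le_mul_of_nonneg_left h2 hr.le
    linarith

/-- the corner of a cell -/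
lemma corner (z : Z 2) (r : ℝ) (hr : 0 < r) :
    ‖z - r • zc (cb r z)‖ ≤ 2 * r ∧ 0 ≤ (z - r • zc (cb r z)).2.2 ∧
      (z - r • zc (cb r z)).2.2 ≤ r := by
  have h1 : (z - r • zc (cb r z)).1 = z.1 - r * (⌊z.1 / r⌋ : ℝ) := rfl
  have h2 : (z - r • zc (cb r z)).2.2 = z.2.2 - r * (⌊z.2.2 / r⌋ : ℝ) := rfl
  have h3 : ∀ i, (z - r • zc (cb r z)).2.1 i = z.2.1 i - r * (⌊z.2.1 i / r⌋ : ℝ) := fun i => rfl
  refine ⟨?_, ?_, ?_⟩
  · rw [Prod.norm_def, Prod.norm_def]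
    refine max_le ?_ (max_le ?_ ?_)
    · rw [h1, Real.norm_eq_abs, abs_of_nonneg (frac z.1 r hr).1]
      linarith [(frac z.1 r hr).2]
    · refine norm_le _ r hr.le fun i => ?_
      rw [h3, abs_of_nonneg (frac (z.2.1 i) r hr).1]
      exact (frac (z.2.1 i) r hr).2
    · rw [h2, Real.norm_eq_abs, abs_of_nonneg (frac z.2.2 r hr).1]
      linarith [(frac z.2.2 r hr).2]
  · rw [h2]
    exact (frac z.2.2 r hr).1
  · rw [h2]
    exact (frac z.2.2 r hr).2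

lemma mem_icc (x r c : ℝ) (j : ℤ) (hr : 0 < r) (h : |r * (j : ℝ) - x| ≤ c * r) :
    j ∈ Finset.Icc ⌈x / r - c⌉ ⌊x / r + c⌋ := by
  rw [abs_le] at h
  rw [Finset.mem_Icc, Int.ceil_le, Int.le_floor]
  have h3 : x = r * (x / r) := by field_simp
  constructor
  · have h4 : r * (x / r - c) ≤ r * (j : ℝ) := by
      rw [mul_sub, ← h3]
      linarith [h.1]
    exact le_of_mul_le_mul_left h4 hr
  · have h4 : r * (j : ℝ) ≤ r * (x / r + c) := by
      rw [mul_add, ← h3]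
      linarith [h.2]
    exact le_of_mul_le_mul_left h4 hr

/-- CEL: covering by cells of side about `ρ²` -/
theorem pf_CEL : T_CEL := by
  classical
  refine ⟨205 ^ 4, by norm_num, fun D ρ B z₀ P hD hρ hB hP hQ => ?_⟩
  obtain ⟨r, hr⟩ : ∃ r, r = ρ ^ 2 := ⟨_, rfl⟩
  have hr0 : 0 < r := by
    rw [hr]
    positivity
  rw [← hr] at hP hQ
  set J := P.image fun p => cb r p.2.2 with hJ
  have hz : ∀ j ∈ J, ‖r • zc j - z₀‖ ≤ 102 * D * r := by
    intro j hj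
    obtain ⟨p, hp, rfl⟩ := Finset.mem_image.1 hj
    have h1 := (corner p.2.2 r hr0).1
    have h2 := hP p hp
    have h3 : r • zc (cb r p.2.2) - z₀ = (p.2.2 - z₀) - (p.2.2 - r • zc (cb r p.2.2)) := by abel
    rw [h3]
    refine (norm_sub_le _ _).trans ?_
    nlinarith
  have hfib : ∀ j ∈ J, ((P.filter fun p => cb r p.2.2 = j).card : ℝ) ≤ B := by
    intro j hj
    refine hQ (r • zc j) (hz j hj) _ (Finset.filter_subset _ _) fun p hp => ?_
    obtain ⟨-, h1⟩ := Finset.mem_filter.1 hp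
    have h2 := corner p.2.2 r hr0
    rw [h1] at h2
    exact h2
  have hJc : (J.card : ℝ) ≤ (205 * D) ^ 4 := by
    have h1 : J ⊆ (Finset.Icc ⌈z₀.1 / r - 102 * D⌉ ⌊z₀.1 / r + 102 * D⌋) ×ˢ
        ((Fintype.piFinset fun i : Fin 2 =>
          Finset.Icc ⌈z₀.2.1 i / r - 102 * D⌉ ⌊z₀.2.1 i / r + 102 * D⌋) ×ˢ
        Finset.Icc ⌈z₀.2.2 / r - 102 * D⌉ ⌊z₀.2.2 / r + 102 * D⌋) := by
      intro j hj
      have h2 := hz j hj
      rw [Prod.norm_def, Prod.norm_def] at h2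
      have h3 : ‖(r • zc j - z₀).1‖ ≤ 102 * D * r := (le_max_left _ _).trans h2
      have h4 : ‖(r • zc j - z₀).2.1‖ ≤ 102 * D * r :=
        ((le_max_left _ _).trans (le_max_right _ _)).trans h2
      have h5 : ‖(r • zc j - z₀).2.2‖ ≤ 102 * D * r :=
        ((le_max_right _ _).trans (le_max_right _ _)).trans h2
      rw [Finset.mem_product, Finset.mem_product, Fintype.mem_piFinset]
      refine ⟨mem_icc _ r _ _ hr0 h3, fun i => mem_icc _ r _ _ hr0 ?_, mem_icc _ r _ _ hr0 h5⟩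
      exact (coord (r • zc j - z₀).2.1 i).trans h4
    have h2 : ∀ a : ℝ, ((Finset.Icc ⌈a - 102 * D⌉ ⌊a + 102 * D⌋).card : ℝ) ≤ 205 * D := by
      intro a
      have := card_icc a (102 * D) (by linarith)
      linarith
    have h3 := Finset.card_le_card h1
    rw [Finset.card_product, Finset.card_product, Fintype.card_piFinset, Fin.prod_univ_two] at h3
    have h4 : (J.card : ℝ) ≤
        ((Finset.Icc ⌈z₀.1 / r - 102 * D⌉ ⌊z₀.1 / r + 102 * D⌋).card : ℝ) *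
        ((((Finset.Icc ⌈z₀.2.1 0 / r - 102 * D⌉ ⌊z₀.2.1 0 / r + 102 * D⌋).card : ℝ) *
          ((Finset.Icc ⌈z₀.2.1 1 / r - 102 * D⌉ ⌊z₀.2.1 1 / r + 102 * D⌋).card : ℝ)) *
        ((Finset.Icc ⌈z₀.2.2 / r - 102 * D⌉ ⌊z₀.2.2 / r + 102 * D⌋).card : ℝ)) := by
      exact_mod_cast h3
    refine h4.trans ?_
    have h5 : (0 : ℝ) ≤ 205 * D := by linarith
    calc _ ≤ (205 * D) * (((205 * D) * (205 * D)) * (205 * D)) := by
          refine mul_le_mul (h2 _) ?_ (by positivity) h5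
          refine mul_le_mul ?_ (h2 _) (Nat.cast_nonneg _) (mul_nonneg h5 h5)
          exact mul_le_mul (h2 _) (h2 _) (Nat.cast_nonneg _) h5
      _ = (205 * D) ^ 4 := by ring
  have hsum : (P.card : ℝ) = ∑ j ∈ J, ((P.filter fun p => cb r p.2.2 = j).card : ℝ) := by
    have h1 := Finset.card_eq_sum_card_image (fun p : Tp => cb r p.2.2) P
    exact_mod_cast h1
  rw [hsum]
  calc ∑ j ∈ J, ((P.filter fun p => cb r p.2.2 = j).card : ℝ) ≤ ∑ j ∈ J, B :=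
        Finset.sum_le_sum hfib
    _ = J.card * B := by rw [Finset.sum_const, nsmul_eq_mul]
    _ ≤ (205 * D) ^ 4 * B := mul_le_mul_of_nonneg_right hJc hB
    _ = 205 ^ 4 * D ^ 4 * B := by ring

end Pool.Agent.H60.D3N.CEL
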